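import Pool.Agent.H972.FH.Final

/-!
# Multi-point Fisher–Hartwig asymptotics for the spherical ensemble

Full answer to the question: for every `k`, all distinct points `p₁, …, pₖ` of the extended plane
and all complex `γ₁, …, γₖ` with real parts `> -2`, the expectation of
`exp (∑ γᵢ L_n(g_{pᵢ}))` is asymptotic to the stated main term.

Idea of the proof: the expectation is a ratio of two determinants of Gram matrices of the monomials
of degree less than `n`, for the complex weight `∏ d(z, pᵢ)^γᵢ` and for the weight `1`. The
reproducing kernel of the complex bilinear form is compared, with an exponentially small error in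
an integral sense, to an explicit approximate kernel (an inf-sup estimate), which gives the
logarithmic derivative of the determinant along `γ ↦ t γ`, `0 ≤ t ≤ 1`, up to `o(1)` uniformly
in `t`; integration in `t` gives the main term.
-/

set_option autoImplicit false

open MeasureTheory Filter Topology

namespace Pool.Agent.Results.MP_8d6f76_pr.FisherHartwig

open Pool.Agent.H972.FHS

/-- Multi-point Fisher–Hartwig asymptotics for the spherical ensemble: integrability for every `n`,
and the ratio of the expectation to the main term tends to `1`. -/
theorem result (k : ℕ) (p : Fin k → OnePoint ℂ) (hp : Function.Injective p) (γ : Fin k → ℂ)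
    (hγ : ∀ i, -2 < (γ i).re) :
    (∀ n : ℕ, Integrable (fun x => Complex.exp (∑ i, γ i * (linStat (p i) x : ℂ))) (pairLaw n)) ∧
    Tendsto (fun n : ℕ => (∫ x, Complex.exp (∑ i, γ i * (linStat (p i) x : ℂ)) ∂(pairLaw n)) /
      mainTerm p γ n) atTop (𝓝 1) :=
  ⟨fun n => fh_int n hp hγ, fh_tendsto hp hγ⟩

end Pool.Agent.Results.MP_8d6f76_pr.FisherHartwig
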